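import Pool.Agent.helper78.WB.SpecIII

-- Row LVL of project wb (MP_bb5cc8_nt): level sets of a binary form.

set_option autoImplicit false

namespace Pool.Agent.WB

open MvPolynomial

namespace LVLaux

theorem eval_scale (g : ℕ) (B : MvPolynomial (Fin 3) ℤ) (hB : B.IsHomogeneous g) (x : ℤ)
    (v : Fin 3 → ℤ) : eval (fun i => x * v i) B = x ^ g * eval v B := by
  rw [eval_eq', eval_eq', Finset.mul_sum]
  refine Finset.sum_congr rfl fun μ hμ => ?_
  have h1 : μ.degree = g := by
    have := hB (mem_support_iff.1 hμ)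
    rw [← this, Finsupp.degree_eq_weight_one]
    rfl
  have h2 : ∏ i : Fin 3, (x * v i) ^ μ i = x ^ g * ∏ i : Fin 3, v i ^ μ i := by
    simp only [mul_pow, Finset.prod_mul_distrib]
    rw [Finset.prod_pow_eq_pow_sum]
    congr 2
    rw [← h1, Finsupp.degree_eq_sum]
  rw [h2]; ring

-- the polynomial in y
noncomputable def pol (B : MvPolynomial (Fin 3) ℤ) (b x : ℤ) : Polynomial ℤ :=
  aeval (![Polynomial.C x, Polynomial.X, 0] : Fin 3 → Polynomial ℤ) B - Polynomial.C b

theorem eval_pol (B : MvPolynomial (Fin 3) ℤ) (b x y : ℤ) :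
    (pol B b x).eval y = eval ![x, y, 0] B - b := by
  unfold pol
  rw [Polynomial.eval_sub, Polynomial.eval_C]
  congr 1
  have h1 : (Polynomial.evalRingHom y)
      (aeval (![Polynomial.C x, Polynomial.X, 0] : Fin 3 → Polynomial ℤ) B) =
      eval ![x, y, 0] B := by
    have h2 : (Polynomial.evalRingHom y).comp
        (aeval (![Polynomial.C x, Polynomial.X, 0] : Fin 3 → Polynomial ℤ)).toRingHom =
        (eval ![x, y, 0] : MvPolynomial (Fin 3) ℤ →+* ℤ) := by
      refine MvPolynomial.ringHom_ext ?_ ?_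
      · intro r
        simp
      · intro i
        fin_cases i <;> simp
    exact congrArg (fun f : MvPolynomial (Fin 3) ℤ →+* ℤ => f B) h2
  exact h1

theorem natDegree_pol (g : ℕ) (B : MvPolynomial (Fin 3) ℤ) (hB : B.IsHomogeneous g) (b x : ℤ) :
    (pol B b x).natDegree ≤ g := by
  unfold pol
  refine (Polynomial.natDegree_sub_le _ _).trans ?_
  rw [Polynomial.natDegree_C, max_eq_left (Nat.zero_le _)]
  rw [aeval_def, eval₂_eq']
  refine Polynomial.natDegree_sum_le_of_forall_le _ _ fun μ hμ => ?_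
  have h1 : μ.degree = g := by
    have := hB (mem_support_iff.1 hμ)
    rw [← this, Finsupp.degree_eq_weight_one]
    rfl
  have h1' : μ 0 + μ 1 + μ 2 = g := by
    rw [← h1, Finsupp.degree_eq_sum, Fin.sum_univ_three]
  rw [Fin.prod_univ_three]
  have e0 : (![Polynomial.C x, Polynomial.X, 0] : Fin 3 → Polynomial ℤ) 0 = Polynomial.C x := rfl
  have e1 : (![Polynomial.C x, Polynomial.X, 0] : Fin 3 → Polynomial ℤ) 1 = Polynomial.X := rfl
  have e2 : (![Polynomial.C x, Polynomial.X, 0] : Fin 3 → Polynomial ℤ) 2 = 0 := rfl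
  rw [e0, e1, e2]
  have d0 : (algebraMap ℤ (Polynomial ℤ) (coeff μ B)).natDegree = 0 := by
    rw [Polynomial.algebraMap_eq, Polynomial.natDegree_C]
  have d1 : (Polynomial.C x ^ μ 0 : Polynomial ℤ).natDegree = 0 := by
    rw [← Polynomial.C_pow, Polynomial.natDegree_C]
  have d2 : ((0 : Polynomial ℤ) ^ μ 2).natDegree = 0 := by
    rcases Nat.eq_zero_or_pos (μ 2) with h | h
    · rw [h, pow_zero, Polynomial.natDegree_one]
    · rw [zero_pow h.ne', Polynomial.natDegree_zero]
  have d3 : ((Polynomial.X : Polynomial ℤ) ^ μ 1).natDegree ≤ μ 1 :=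
    Polynomial.natDegree_X_pow_le _
  refine Polynomial.natDegree_mul_le.trans ?_
  have d4 : ((Polynomial.C x ^ μ 0 : Polynomial ℤ) * Polynomial.X ^ μ 1 * 0 ^ μ 2).natDegree ≤
      μ 1 := by
    refine Polynomial.natDegree_mul_le.trans ?_
    have := Polynomial.natDegree_mul_le (p := (Polynomial.C x ^ μ 0 : Polynomial ℤ))
      (q := (Polynomial.X : Polynomial ℤ) ^ μ 1)
    omega
  omega

end LVLaux

open LVLaux in
theorem LVL : LVL_stmt := by
  classical
  intro g X₀ B b hB hg _ _ hb
  set I : Finset ℤ := Finset.Icc (-(X₀ : ℤ)) X₀ with hI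
  have hIc : I.card = 2 * X₀ + 1 := by
    rw [hI, Int.card_Icc]
    omega
  have hmem : ∀ x : ℤ, x ∈ I ↔ |x| ≤ (X₀ : ℤ) := by
    intro x
    rw [hI, Finset.mem_Icc, abs_le]
  set S : Finset (ℤ × ℤ) := (I ×ˢ I).filter (fun z => eval ![z.1, z.2, 0] B = b) with hS
  have hset : {z : ℤ × ℤ | |z.1| ≤ (X₀ : ℤ) ∧ |z.2| ≤ (X₀ : ℤ) ∧ eval ![z.1, z.2, 0] B = b} =
      (S : Set (ℤ × ℤ)) := by
    ext z
    rw [Finset.mem_coe, hS, Finset.mem_filter, Finset.mem_product, hmem, hmem, Set.mem_ofPred_eq,
      and_assoc]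
  rw [hset, Set.ncard_coe_finset]
  -- the exceptional values of x
  set Z : Finset ℤ := I.filter (fun x => pol B b x = 0) with hZ
  have hZ2 : Z.card ≤ 2 := by
    have hval : ∀ x ∈ Z, x ^ g * eval ![1, 0, 0] B = b := by
      intro x hx
      have h1 := (Finset.mem_filter.1 hx).2
      have h2 := eval_pol B b x 0
      rw [h1, Polynomial.eval_zero] at h2
      have h3 : (fun i => x * (![1, 0, 0] : Fin 3 → ℤ) i) = ![x, 0, 0] := by
        funext i
        fin_cases i <;> simp
      have h4 := eval_scale g B hB x ![1, 0, 0]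
      rw [h3] at h4
      rw [← h4]
      linarith
    rcases Z.eq_empty_or_nonempty with h | ⟨x₀, hx₀⟩
    · rw [h]; simp
    · have hsub : Z ⊆ {x₀, -x₀} := by
        intro x hx
        have h1 := hval x hx
        have h2 := hval x₀ hx₀
        have hne : eval ![1, 0, 0] B ≠ 0 := by
          intro h0
          rw [h0, mul_zero] at h1
          exact hb h1.symm
        have h3 : x ^ g = x₀ ^ g := mul_right_cancel₀ hne (h1.trans h2.symm)
        have h4 : |x| = |x₀| := by
          have h5 : |x| ^ g = |x₀| ^ g := by rw [← abs_pow, ← abs_pow, h3]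
          exact (pow_left_inj₀ (abs_nonneg _) (abs_nonneg _) (by omega)).1 h5
        rw [Finset.mem_insert, Finset.mem_singleton]
        exact abs_eq_abs.1 h4
      exact (Finset.card_le_card hsub).trans Finset.card_le_two
  have hfib : S.card = ∑ x ∈ I, (S.filter (fun z => z.1 = x)).card := by
    refine Finset.card_eq_sum_card_fiberwise fun z hz => ?_
    exact (Finset.mem_product.1 (Finset.mem_filter.1 hz).1).1
  have hbd : ∀ x ∈ I, (S.filter (fun z => z.1 = x)).card ≤
      g + if x ∈ Z then 2 * X₀ + 1 else 0 := by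
    intro x hx
    by_cases hxZ : x ∈ Z
    · rw [if_pos hxZ]
      have h1 : (S.filter (fun z => z.1 = x)).card ≤ I.card := by
        refine Finset.card_le_card_of_injOn (fun z => z.2) ?_ ?_
        · intro z hz
          have h2 := (Finset.mem_filter.1 (Finset.mem_coe.1 hz)).1
          exact (Finset.mem_product.1 (Finset.mem_filter.1 h2).1).2
        · intro z hz w hw hzw
          have h2 := (Finset.mem_filter.1 (Finset.mem_coe.1 hz)).2
          have h3 := (Finset.mem_filter.1 (Finset.mem_coe.1 hw)).2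
          exact Prod.ext (h2.trans h3.symm) hzw
      omega
    · rw [if_neg hxZ, add_zero]
      have hne : pol B b x ≠ 0 := by
        intro h0
        exact hxZ (Finset.mem_filter.2 ⟨hx, h0⟩)
      have h1 : (S.filter (fun z => z.1 = x)).card ≤ (pol B b x).roots.toFinset.card := by
        refine Finset.card_le_card_of_injOn (fun z => z.2) ?_ ?_
        · intro z hz
          have h2 := Finset.mem_filter.1 (Finset.mem_coe.1 hz)
          have h3 := (Finset.mem_filter.1 h2.1).2
          rw [Finset.mem_coe, Multiset.mem_toFinset, Polynomial.mem_roots hne]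
          show (pol B b x).eval z.2 = 0
          rw [eval_pol, ← h2.2, h3, sub_self]
        · intro z hz w hw hzw
          have h2 := (Finset.mem_filter.1 (Finset.mem_coe.1 hz)).2
          have h3 := (Finset.mem_filter.1 (Finset.mem_coe.1 hw)).2
          exact Prod.ext (h2.trans h3.symm) hzw
      exact h1.trans ((Multiset.toFinset_card_le _).trans
        ((Polynomial.card_roots' _).trans (natDegree_pol g B hB b x)))
  rw [hfib]
  refine (Finset.sum_le_sum hbd).trans ?_
  rw [Finset.sum_add_distrib, Finset.sum_const, hIc, smul_eq_mul, ← Finset.sum_filter,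
    Finset.sum_const, smul_eq_mul]
  have h5 : (I.filter (fun x => x ∈ Z)).card ≤ 2 :=
    (Finset.card_le_card (fun x hx => (Finset.mem_filter.1 hx).2)).trans hZ2
  nlinarith [Nat.mul_le_mul_right (2 * X₀ + 1) h5]

end Pool.Agent.WB
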